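import Pool.Agent.W416.Equidim
import Pool.Agent.H841.PSRes
import Pool.Agent.H594.PSRegP

/-!
# The grade conjecture fails: dimension and grade over the ring `RR[[t]]/(s t)`

The ring and the module are those of the starting helper files `H607R3/PS`; this file proves the two
statements `TaskDimP` and `TaskGradeP` announced there.
-/

set_option autoImplicit false

namespace Run7.h332.Gr

open Pool.Agent.H607R3.PS H51R3.PS Pool.Agent.W416.Equidim IsLocalRing PrimeSpectrum

/-- If `s t = 0`, `dim C/t ≤ 1` and `dim C/s ≤ 1` then `dim C ≤ 1`. -/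
theorem dim_le_one {C : Type} [CommRing C] (s t : C) (hst : s * t = 0)
    (h1 : ringKrullDim (C ⧸ (Ideal.span {t} : Ideal C)) ≤ 1)
    (h2 : ringKrullDim (C ⧸ (Ideal.span {s} : Ideal C)) ≤ 1) : ringKrullDim C ≤ 1 := by
  refine iSup_le fun p => ?_
  have key : ∀ x : C, x ∈ p.head.asIdeal →
      (p.length : WithBot ℕ∞) ≤ ringKrullDim (C ⧸ (Ideal.span {x} : Ideal C)) := by
    intro x hx
    rw [ringKrullDim_quotient]
    have hmem : ∀ i, p i ∈ zeroLocus ((Ideal.span {x} : Ideal C) : Set C) := by
      intro i
      have hle : p.head ≤ p i := p.head_le i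
      intro y hy
      have hy' : y ∈ (Ideal.span {x} : Ideal C) := hy
      have h3 : (Ideal.span {x} : Ideal C) ≤ p.head.asIdeal := by
        rw [Ideal.span_le, Set.singleton_subset_iff]
        exact hx
      exact hle (h3 hy')
    let q : LTSeries (zeroLocus ((Ideal.span {x} : Ideal C) : Set C)) :=
      { length := p.length
        toFun := fun i => ⟨p i, hmem i⟩
        step := fun i => p.step i }
    exact Order.LTSeries.length_le_krullDim q
  have hz : s * t ∈ p.head.asIdeal := by rw [hst]; exact Ideal.zero_mem _
  rcases p.head.isPrime.mem_or_mem hz with h | h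
  · exact (key s h).trans h2
  · exact (key t h).trans h1

/-- Height of a prime all of whose subprimes contain the kernel of a surjection. -/
theorem height_comap_le {A B : Type} [CommRing A] [CommRing B] (f : A →+* B)
    (hf : Function.Surjective f) (q : Ideal B) [q.IsPrime]
    (h : ∀ P : Ideal A, P.IsPrime → P ≤ q.comap f → RingHom.ker f ≤ P) :
    (q.comap f).height ≤ q.height := by
  have hP : (q.comap f).IsPrime := Ideal.comap_isPrime f q
  have e1 : (q.comap f).height = Order.height (⟨q.comap f, hP⟩ : PrimeSpectrum A) :=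
    PrimeSpectrum.height_eq_orderHeight ⟨q.comap f, hP⟩
  have e2 : q.height = Order.height (⟨q, inferInstance⟩ : PrimeSpectrum B) :=
    PrimeSpectrum.height_eq_orderHeight ⟨q, inferInstance⟩
  rw [e1, e2]
  apply Order.height_le
  intro p hp
  have hle : ∀ i, (p i).asIdeal ≤ q.comap f := by
    intro i
    have h3 : p i ≤ p.last := p.monotone (Fin.le_last i)
    rw [hp] at h3
    exact h3
  have hex : ∀ i, ∃ Q : PrimeSpectrum B, Q.asIdeal.comap f = (p i).asIdeal := by
    intro i
    have hk := h (p i).asIdeal (p i).isPrime (hle i)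
    have hpr : ((p i).asIdeal.map f).IsPrime :=
      Ideal.map_isPrime_of_surjective hf hk
    refine ⟨⟨(p i).asIdeal.map f, hpr⟩, ?_⟩
    show ((p i).asIdeal.map f).comap f = (p i).asIdeal
    rw [Ideal.comap_map_of_surjective f hf, sup_eq_left]
    exact hk
  choose Q hQ using hex
  have hmono : StrictMono Q := by
    intro i j hij
    have h4 : p i < p j := p.strictMono hij
    rw [lt_iff_le_not_ge]
    constructor
    · have : (Q i).asIdeal.comap f ≤ (Q j).asIdeal.comap f := by rw [hQ, hQ]; exact h4.le
      exact (Ideal.comap_le_comap_iff_of_surjective f hf _ _).mp this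
    · intro h5
      have : (Q j).asIdeal.comap f ≤ (Q i).asIdeal.comap f := Ideal.comap_mono h5
      rw [hQ, hQ] at this
      exact h4.not_ge this
  let r : LTSeries (PrimeSpectrum B) := LTSeries.mk p.length Q hmono
  have hr : r.last ≤ (⟨q, inferInstance⟩ : PrimeSpectrum B) := by
    have h6 : (Q (Fin.last _)).asIdeal.comap f ≤ q.comap f := by rw [hQ]; exact hle _
    exact (Ideal.comap_le_comap_iff_of_surjective f hf _ _).mp h6
  exact (Order.length_le_height hr)

end Run7.h332.Gr
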