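import Pool.Agent.Run7.h332.Gr.A
import Pool.Agent.H633R3.PS.Loc

set_option autoImplicit false
set_option backward.isDefEq.respectTransparency.types true

namespace Run7.h332.Gr

open Pool.Agent.H607R3.PS H51R3.PS Pool.Agent.W416.Equidim IsLocalRing PrimeSpectrum

section Maps

variable {T : Type} [CommRing T] {α β γ : T}

/-- the class of the variable `t` -/
noncomputable def tt : RP T α β γ := Ideal.Quotient.mk _ (PowerSeries.X)

/-- `t ↦ 0` -/
noncomputable def pr : RP T α β γ →+* RR T α β γ :=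
  Ideal.Quotient.lift _ (PowerSeries.constantCoeff (R := RR T α β γ)) (by
    intro f hf
    rw [Ideal.mem_span_singleton] at hf
    obtain ⟨c, rfl⟩ := hf
    simp)

theorem pr_toRP (u : RR T α β γ) : pr (toRP u : RP T α β γ) = u := by
  show Ideal.Quotient.lift _ _ _ (Ideal.Quotient.mk _ (PowerSeries.C u)) = u
  rw [Ideal.Quotient.lift_mk]
  exact PowerSeries.constantCoeff_C u

theorem pr_surj : Function.Surjective (pr : RP T α β γ →+* RR T α β γ) :=
  fun u => ⟨toRP u, pr_toRP u⟩

theorem s_tt : (toRP (RR.s : RR T α β γ) : RP T α β γ) * tt = 0 := by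
  show Ideal.Quotient.mk _ (PowerSeries.C (RR.s : RR T α β γ)) * Ideal.Quotient.mk _ PowerSeries.X = 0
  rw [← map_mul, Ideal.Quotient.eq_zero_iff_mem]
  exact Ideal.mem_span_singleton_self _

/-- every element is a constant plus a multiple of `t` -/
theorem split (f : RP T α β γ) : ∃ g : RP T α β γ, f = toRP (pr f) + tt * g := by
  obtain ⟨F, rfl⟩ := Ideal.Quotient.mk_surjective f
  refine ⟨Ideal.Quotient.mk _ (PowerSeries.mk fun p => PowerSeries.coeff (p + 1) F), ?_⟩
  have h1 : F = PowerSeries.C (PowerSeries.constantCoeff F) +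
      PowerSeries.X * (PowerSeries.mk fun p => PowerSeries.coeff (p + 1) F) := by
    rw [← PowerSeries.sub_const_eq_X_mul_shift]; ring
  have h2 : pr (Ideal.Quotient.mk _ F : RP T α β γ) = PowerSeries.constantCoeff F := by
    show Ideal.Quotient.lift _ _ _ (Ideal.Quotient.mk _ F) = _
    rw [Ideal.Quotient.lift_mk]
  rw [h2]
  conv_lhs => rw [h1]
  rw [map_add, map_mul]
  rfl

theorem gens_map {A B : Type} [CommRing A] [CommRing B] (f : A →+* B) (x y z w s : A) (i : Fin 7) :
    f (gens x y z w s i) = gens (f x) (f y) (f z) (f w) (f s) i := by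
  fin_cases i <;> simp [gens]

theorem cI_map {A B : Type} [CommRing A] [CommRing B] (f : A →+* B) (x y z w s : A) :
    (cI x y z w s).map f = cI (f x) (f y) (f z) (f w) (f s) := by
  unfold cI
  rw [Ideal.map_span, ← Set.range_comp]
  congr 1
  ext u
  constructor
  · rintro ⟨i, rfl⟩
    exact ⟨i, (gens_map f x y z w s i).symm⟩
  · rintro ⟨i, rfl⟩
    exact ⟨i, gens_map f x y z w s i⟩

theorem toRP_mem {u : RR T α β γ} (hu : u ∈ cI (RR.x : RR T α β γ) RR.y RR.z RR.w RR.s) :
    toRP u ∈ cP T α β γ := by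
  have h := Ideal.mem_map_of_mem (toRP : RR T α β γ →+* RP T α β γ) hu
  rw [cI_map] at h
  exact h

theorem pr_mem {f : RP T α β γ} (hf : f ∈ cP T α β γ) :
    pr f ∈ cI (RR.x : RR T α β γ) RR.y RR.z RR.w RR.s := by
  have h := Ideal.mem_map_of_mem (pr : RP T α β γ →+* RR T α β γ) hf
  have e : (cP T α β γ).map (pr : RP T α β γ →+* RR T α β γ) =
      cI (RR.x : RR T α β γ) RR.y RR.z RR.w RR.s := by
    unfold cP
    rw [cI_map, pr_toRP, pr_toRP, pr_toRP, pr_toRP, pr_toRP]
  rw [e] at h
  exact h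

end Maps

section Base

variable {T : Type} [CommRing T] [IsLocalRing T] [IsNoetherianRing T] [IsDomain T] {α β γ : T}

theorem s_not_mem_q0 (hB : Base T α β γ) : (RR.s : RR T α β γ) ∉ q0 T α β γ := by
  intro hs
  have h1 : rho (RR.s : RR T α β γ) ∈ (Ideal.span {α, β} : Ideal T) := hs
  exact hB.notMem h1

theorem q0_prime (hB : Base T α β γ) : (q0 T α β γ).IsPrime := by
  have := hB.prime2
  exact Ideal.comap_isPrime _ _

theorem q0_height [IsLocalRing (RR T α β γ)] (hB : Base T α β γ) :
    (q0 T α β γ).height ≤ 2 := by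
  have hp := q0_prime (α := α) (β := β) (γ := γ) hB
  have hlt : q0 T α β γ < maximalIdeal (RR T α β γ) := by
    refine lt_of_le_of_ne (le_maximalIdeal hp.ne_top) ?_
    intro h
    apply s_not_mem_q0 hB
    rw [h, mem_maximalIdeal, mem_nonunits_iff]
    intro hu
    have h1 := hu.mul_left_eq_zero.mp (RR.xs : (RR.x * RR.s : RR T α β γ) = 0)
    have h2 := congrArg RR.b h1
    change (1 : T) = 0 at h2
    exact one_ne_zero h2
  have h3 := Ideal.height_add_one_le_of_lt_of_isPrime hlt
  have h4 : ((maximalIdeal (RR T α β γ)).height : WithBot ℕ∞) ≤ ((3 : ℕ∞) : WithBot ℕ∞) := by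
    rw [IsLocalRing.maximalIdeal_height_eq_ringKrullDim]
    exact dimR hB
  have h5 : (maximalIdeal (RR T α β γ)).height ≤ 3 := WithBot.coe_le_coe.mp h4
  have h6 : (q0 T α β γ).height + 1 ≤ 2 + 1 := h3.trans h5
  exact (ENat.add_le_add_iff_right (by decide)).mp h6

end Base

section Generic

/-- no weakly regular sequence of length three inside a prime of height at most two -/
theorem no_three {A : Type} [CommRing A] [IsNoetherianRing A] (P I : Ideal A) [P.IsPrime]
    (h : P.height ≤ 2) (hI : I ≤ P) :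
    ¬ ∃ rs : List A, rs.length = 3 ∧ (∀ r ∈ rs, r ∈ I) ∧
      RingTheory.Sequence.IsWeaklyRegular A rs := by
  rintro ⟨rs, hlen, hmem, hreg⟩
  have hR : RingTheory.Sequence.IsRegular (Localization.AtPrime P)
      (rs.map (algebraMap A (Localization.AtPrime P))) :=
    hreg.isRegular_of_isLocalization_of_mem (Localization.AtPrime P) P
      (fun r hr => hI (hmem r hr))
  have h1 := ringKrullDim_add_length_eq_ringKrullDim_of_isRegular _ hR
  rw [IsLocalization.AtPrime.ringKrullDim_eq_height P (Localization.AtPrime P),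
    List.length_map, hlen] at h1
  have hnt : Nontrivial (Localization.AtPrime P ⧸ Ideal.ofList
      (rs.map (algebraMap A (Localization.AtPrime P)))) := by
    apply Ideal.Quotient.nontrivial_iff.mpr
    intro h
    apply hR.top_ne_smul
    rw [h]
    simp
  have h2 : (0 : WithBot ℕ∞) ≤ ringKrullDim (Localization.AtPrime P ⧸ Ideal.ofList
      (rs.map (algebraMap A (Localization.AtPrime P)))) := ringKrullDim_nonneg_of_nontrivial
  have h3 : ((3 : ℕ) : WithBot ℕ∞) ≤ (P.height : WithBot ℕ∞) := by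
    rw [← h1]
    exact le_add_of_nonneg_left h2
  have h4 : ((3 : ℕ∞) : WithBot ℕ∞) ≤ ((2 : ℕ∞) : WithBot ℕ∞) :=
    h3.trans (WithBot.coe_le_coe.mpr h)
  have h5 : (3 : ℕ∞) ≤ 2 := WithBot.coe_le_coe.mp h4
  exact absurd h5 (by decide)

/-- height of the preimage of a prime under the reduction modulo `t`, when `s t = 0` -/
theorem height_pre {A B : Type} [CommRing A] [CommRing B] (f : A →+* B)
    (hf : Function.Surjective f) (s t : A) (hst : s * t = 0)
    (hk : ∀ a, f a = 0 → ∃ g, a = t * g) (q : Ideal B) [q.IsPrime] (hs : f s ∉ q) :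
    (q.comap f).height ≤ q.height := by
  refine height_comap_le f hf q ?_
  intro P' hP' hle'
  have hs' : s ∉ P' := by
    intro h
    exact hs (hle' h)
  have ht : t ∈ P' := by
    have h1 : s * t ∈ P' := by
      rw [hst]; exact P'.zero_mem
    exact (hP'.mem_or_mem h1).resolve_left hs'
  intro a ha
  rw [RingHom.mem_ker] at ha
  obtain ⟨g, rfl⟩ := hk a ha
  exact P'.mul_mem_right _ ht

end Generic

section Base2

variable {T : Type} [CommRing T] [IsLocalRing T] [IsNoetherianRing T] [IsDomain T] {α β γ : T}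

theorem pr_ker (a : RP T α β γ) (h : pr a = 0) : ∃ g, a = tt * g := by
  obtain ⟨g, hg⟩ := split a
  rw [h, map_zero, zero_add] at hg
  exact ⟨g, hg⟩

theorem cP_le_comap : cP T α β γ ≤ (q0 T α β γ).comap pr := by
  intro f hf
  have h1 : pr f ∈ cI (RR.x : RR T α β γ) RR.y RR.z RR.w RR.s := pr_mem hf
  have h2 : pr f ∈ q0 T α β γ := cI_le_q0 h1
  exact Ideal.mem_comap.mpr h2

end Base2

theorem taskGradeP : TaskGradeP := by
  intro T _ _ _ _ α β γ hB
  obtain ⟨hα, hβ, hγ⟩ := mem_max hB
  have hloc : IsLocalRing (RR T α β γ) :=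
    Pool.Agent.H607R3.PS.taskLoc T α β γ hα hβ hγ
  have hq : (q0 T α β γ).IsPrime := q0_prime (α := α) (β := β) (γ := γ) hB
  have hs : pr (toRP (RR.s : RR T α β γ) : RP T α β γ) ∉ q0 T α β γ := by
    rw [pr_toRP]
    exact s_not_mem_q0 hB
  have hh : ((q0 T α β γ).comap (pr : RP T α β γ →+* RR T α β γ)).height ≤ 2 :=
    (height_pre pr pr_surj (toRP RR.s) tt s_tt pr_ker (q0 T α β γ) hs).trans (q0_height hB)
  have hPp : ((q0 T α β γ).comap (pr : RP T α β γ →+* RR T α β γ)).IsPrime :=
    Ideal.comap_isPrime _ _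
  exact no_three ((q0 T α β γ).comap (pr : RP T α β γ →+* RR T α β γ)) (cP T α β γ) hh
    cP_le_comap

end Run7.h332.Gr
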