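import Pool.Agent.Run7.h332.Gr.B
import Pool.Agent.H832R3.PS.TaskFL

set_option autoImplicit false
set_option backward.isDefEq.respectTransparency.types true

namespace Run7.h332.Gr

open Pool.Agent.H607R3.PS H51R3.PS Pool.Agent.W416.Equidim IsLocalRing PrimeSpectrum

section Generic

/-- the power series ring modulo `s t` maps onto the power series ring over `R/s` -/
theorem dim_ge {R : Type} [CommRing R] (s : R) :
    ringKrullDim (R ⧸ (Ideal.span {s} : Ideal R)) + 1 ≤
      ringKrullDim (PowerSeries R ⧸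
        (Ideal.span {PowerSeries.C s * PowerSeries.X} : Ideal (PowerSeries R))) := by
  refine (ringKrullDim_succ_le_ringKrullDim_powerseries
    (R := R ⧸ (Ideal.span {s} : Ideal R))).trans ?_
  refine ringKrullDim_le_of_surjective (Ideal.Quotient.lift _
    (PowerSeries.map (Ideal.Quotient.mk (Ideal.span {s} : Ideal R))) ?_) ?_
  · intro a ha
    rw [Ideal.mem_span_singleton] at ha
    obtain ⟨c, rfl⟩ := ha
    rw [map_mul, map_mul, PowerSeries.map_C,
      Ideal.Quotient.eq_zero_iff_mem.mpr (Ideal.mem_span_singleton_self s), map_zero, zero_mul,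
      zero_mul]
  · apply Ideal.Quotient.lift_surjective_of_surjective
    exact PowerSeries.map_surjective _ Ideal.Quotient.mk_surjective

/-- quotients generated by constants modulo `t` -/
theorem dim_le_const {A B : Type} [CommRing A] [CommRing B] (f : B →+* A) (t : A)
    (hsplit : ∀ a, ∃ b g, a = f b + t * g) (I : Ideal A) (I0 : Ideal B)
    (h0 : ∀ b ∈ I0, f b ∈ I) (ht : t ∈ I) :
    ringKrullDim (A ⧸ I) ≤ ringKrullDim (B ⧸ I0) := by
  refine ringKrullDim_le_of_surjective (Ideal.Quotient.lift I0 ((Ideal.Quotient.mk I).comp f)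
    (fun b hb => Ideal.Quotient.eq_zero_iff_mem.mpr (h0 b hb))) ?_
  intro c
  obtain ⟨a, rfl⟩ := Ideal.Quotient.mk_surjective c
  obtain ⟨b, g, rfl⟩ := hsplit a
  refine ⟨Ideal.Quotient.mk I0 b, ?_⟩
  rw [Ideal.Quotient.lift_mk, RingHom.comp_apply, Ideal.Quotient.eq]
  have : f b - (f b + t * g) = -g * t := by ring
  rw [this]
  exact I.mul_mem_left _ ht

/-- iterated quotients -/
theorem dim_quot_quot {A : Type} [CommRing A] (I : Ideal A) (t : A) :
    ringKrullDim ((A ⧸ I) ⧸ (Ideal.span {Ideal.Quotient.mk I t} : Ideal (A ⧸ I))) ≤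
      ringKrullDim (A ⧸ (I ⊔ Ideal.span {t})) := by
  refine ringKrullDim_le_of_surjective (Ideal.Quotient.lift (I ⊔ Ideal.span {t})
    ((Ideal.Quotient.mk (Ideal.span {Ideal.Quotient.mk I t} : Ideal (A ⧸ I))).comp
      (Ideal.Quotient.mk I)) ?_) ?_
  · intro a ha
    obtain ⟨i, hi, j, hj, rfl⟩ := Submodule.mem_sup.mp ha
    obtain ⟨c, rfl⟩ := Ideal.mem_span_singleton.mp hj
    rw [RingHom.comp_apply, Ideal.Quotient.eq_zero_iff_mem, map_add,
      Ideal.Quotient.eq_zero_iff_mem.mpr hi, zero_add, map_mul]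
    exact Ideal.mul_mem_right _ _ (Ideal.mem_span_singleton_self _)
  · apply Ideal.Quotient.lift_surjective_of_surjective
    exact Ideal.Quotient.mk_surjective.comp Ideal.Quotient.mk_surjective

/-- Krull: cutting by an element of the Jacobson radical lowers the dimension by at most one -/
theorem dim_le_succ {A : Type} [CommRing A] [IsNoetherianRing A] (I : Ideal A) (t : A)
    (ht : ∀ y : A, IsUnit (t * y + 1)) :
    ringKrullDim (A ⧸ I) ≤ ringKrullDim (A ⧸ (I ⊔ Ideal.span {t})) + 1 := by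
  have h1 := ringKrullDim_le_ringKrullDim_quotient_add_encard (R := A ⧸ I)
    {Ideal.Quotient.mk I t} (by
      rw [Set.singleton_subset_iff, ← Ideal.jacobson_bot]
      refine Ideal.mem_jacobson_bot.mpr ?_
      intro y
      obtain ⟨y, rfl⟩ := Ideal.Quotient.mk_surjective y
      have := (ht y).map (Ideal.Quotient.mk I)
      rwa [map_add, map_mul, map_one] at this)
  refine h1.trans ?_
  rw [Set.encard_singleton]
  exact add_le_add_left (dim_quot_quot I t) 1

/-- an initial pair of a regular sequence of length three -/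
theorem regular_sub {A : Type} [CommRing A] (F G H : A)
    (hw : RingTheory.Sequence.IsWeaklyRegular A [F, G])
    (h3 : RingTheory.Sequence.IsRegular A [F, G, H]) :
    RingTheory.Sequence.IsRegular A [F, G] := by
  refine ⟨hw, ?_⟩
  intro h
  apply h3.top_ne_smul
  apply le_antisymm _ le_top
  have hle : Ideal.ofList [F, G] ≤ Ideal.ofList [F, G, H] := by
    unfold Ideal.ofList
    apply Ideal.span_mono
    intro u hu
    have hu' : u = F ∨ u = G := by simpa using hu
    rcases hu' with rfl | rfl <;> simp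
  have h4 : (Ideal.ofList [F, G] • ⊤ : Submodule A A) ≤ Ideal.ofList [F, G, H] • ⊤ :=
    Submodule.smul_mono_left hle
  exact h.le.trans h4

/-- dimension of a quotient containing a regular pair of a ring of dimension at most three -/
theorem dim_quot_pair {A : Type} [CommRing A] [IsNoetherianRing A] [IsLocalRing A] (F G : A)
    (h : RingTheory.Sequence.IsRegular A [F, G]) (hd : ringKrullDim A ≤ 3) (I : Ideal A)
    (hF : F ∈ I) (hG : G ∈ I) (hwb : ∀ x : WithBot ℕ∞, x + ((2 : ℕ) : WithBot ℕ∞) ≤ 3 → x ≤ 1) :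
    ringKrullDim (A ⧸ I) ≤ 1 := by
  have h1 := ringKrullDim_add_length_eq_ringKrullDim_of_isRegular _ h
  have h2 : ringKrullDim (A ⧸ Ideal.ofList [F, G]) + ((2 : ℕ) : WithBot ℕ∞) ≤ 3 := by
    rw [← h1] at hd
    exact hd
  refine le_trans ?_ (hwb _ h2)
  have hle : Ideal.ofList [F, G] ≤ I := by
    unfold Ideal.ofList
    rw [Ideal.span_le]
    intro u hu
    have hu' : u = F ∨ u = G := by simpa using hu
    rcases hu' with rfl | rfl
    · exact hF
    · exact hG
  exact ringKrullDim_le_of_surjective (Ideal.Quotient.factor hle)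
    (Ideal.Quotient.factor_surjective hle)

theorem wb_le_one (x : WithBot ℕ∞) (h : x + ((2 : ℕ) : WithBot ℕ∞) ≤ 3) : x ≤ 1 := by
  induction x using WithBot.recBotCoe with
  | bot => exact bot_le
  | coe a =>
    have h1 : ((a + 2 : ℕ∞) : WithBot ℕ∞) ≤ ((1 + 2 : ℕ∞) : WithBot ℕ∞) := h
    have h2 : a + 2 ≤ 1 + 2 := WithBot.coe_le_coe.mp h1
    have h3 : a ≤ 1 := (ENat.add_le_add_iff_right (by decide)).mp h2
    exact WithBot.coe_le_coe.mpr h3

end Generic

section Base

variable {T : Type} [CommRing T] [IsLocalRing T] [IsNoetherianRing T] [IsDomain T] {α β γ : T}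

theorem dim_zero [IsLocalRing (RR T α β γ)] (hB : Base T α β γ) :
    ringKrullDim (RR T α β γ ⧸ (cI (RR.x : RR T α β γ) RR.y RR.z RR.w RR.s ⊔
      Ideal.span {RR.s})) ≤ 0 := by
  rw [ringKrullDim_quotient]
  have key : ∀ q : PrimeSpectrum (RR T α β γ), q ∈ zeroLocus
      ((cI (RR.x : RR T α β γ) RR.y RR.z RR.w RR.s ⊔ Ideal.span {RR.s} :
        Ideal (RR T α β γ)) : Set (RR T α β γ)) →
      q.asIdeal = maximalIdeal (RR T α β γ) := by
    intro q hq
    have hle : cI (RR.x : RR T α β γ) RR.y RR.z RR.w RR.s ⊔ Ideal.span {RR.s} ≤ q.asIdeal := hq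
    have := q.isPrime
    refine eq_max_of_le Pool.Agent.H832R3.PS.taskFL hB q.asIdeal (le_sup_left.trans hle) ?_
    exact hle (Ideal.mem_sup_right (Ideal.mem_span_singleton_self _))
  have hsub : Subsingleton (zeroLocus
      ((cI (RR.x : RR T α β γ) RR.y RR.z RR.w RR.s ⊔ Ideal.span {RR.s} :
        Ideal (RR T α β γ)) : Set (RR T α β γ))) := by
    constructor
    intro a b
    apply Subtype.ext
    apply PrimeSpectrum.ext
    rw [key a.1 a.2, key b.1 b.2]
  exact Order.krullDim_nonpos_of_subsingleton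

theorem F_mem_cI : (RR.emb (α ^ 4) : RR T α β γ) ∈
    cI (RR.x : RR T α β γ) RR.y RR.z RR.w RR.s := by
  have h := pr_mem (mem_F (T := T) (α := α) (β := β) (γ := γ))
  rw [map_pow, pr_toRP, ← map_pow] at h
  exact h

theorem G_mem_cI : (RR.emb (β ^ 2) : RR T α β γ) ∈
    cI (RR.x : RR T α β γ) RR.y RR.z RR.w RR.s := by
  have h := pr_mem (mem_G (T := T) (α := α) (β := β) (γ := γ))
  rw [map_pow, pr_toRP, ← map_pow] at h
  exact h

theorem dim_one [IsLocalRing (RR T α β γ)] (hB : Base T α β γ) :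
    ringKrullDim (RR T α β γ ⧸ (cI (RR.x : RR T α β γ) RR.y RR.z RR.w RR.s)) ≤ 1 := by
  have hw : RingTheory.Sequence.IsWeaklyRegular (RR T α β γ)
      [(RR.emb (α ^ 4) : RR T α β γ), RR.emb (β ^ 2)] :=
    weaklyRegular_pair (reg_RR hB.reg)
  have hr : RingTheory.Sequence.IsRegular (RR T α β γ)
      [(RR.emb (α ^ 4) : RR T α β γ), RR.emb (β ^ 2)] :=
    regular_sub _ _ _ hw (regularSeq hB)
  exact dim_quot_pair _ _ hr (dimR hB) _ F_mem_cI G_mem_cI wb_le_one

theorem tt_unit (y : RP T α β γ) : IsUnit (tt * y + 1) := by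
  obtain ⟨Y, rfl⟩ := Ideal.Quotient.mk_surjective y
  have h1 : IsUnit (PowerSeries.X * Y + 1 : PowerSeries (RR T α β γ)) := by
    rw [PowerSeries.isUnit_iff_constantCoeff]
    simp
  have h2 := h1.map (Ideal.Quotient.mk (Ideal.span {PowerSeries.C (RR.s : RR T α β γ) *
    PowerSeries.X} : Ideal (PowerSeries (RR T α β γ))))
  rwa [map_add, map_mul, map_one] at h2

theorem dimC [IsLocalRing (RR T α β γ)] (hB : Base T α β γ) :
    ringKrullDim (RP T α β γ ⧸ cP T α β γ) ≤ 1 := by
  have hsplit : ∀ a : RP T α β γ, ∃ b g, a = toRP b + tt * g :=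
    fun a => ⟨pr a, split a⟩
  refine dim_le_one (Ideal.Quotient.mk _ (toRP RR.s)) (Ideal.Quotient.mk _ tt) ?_ ?_ ?_
  · rw [← map_mul, s_tt, map_zero]
  · refine (dim_quot_quot _ _).trans ?_
    refine le_trans ?_ (dim_one hB)
    refine dim_le_const toRP tt hsplit _ _ ?_ ?_
    · intro b hb
      exact Ideal.mem_sup_left (toRP_mem hb)
    · exact Ideal.mem_sup_right (Ideal.mem_span_singleton_self _)
  · refine (dim_quot_quot _ _).trans ?_
    refine (dim_le_succ _ tt tt_unit).trans ?_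
    have h0 : ringKrullDim (RP T α β γ ⧸ ((cP T α β γ ⊔ Ideal.span {toRP RR.s}) ⊔
        Ideal.span {tt})) ≤ 0 := by
      refine le_trans ?_ (dim_zero hB)
      refine dim_le_const toRP tt hsplit _ _ ?_ ?_
      · intro b hb
        apply Ideal.mem_sup_left
        obtain ⟨i, hi, j, hj, rfl⟩ := Submodule.mem_sup.mp hb
        obtain ⟨c, rfl⟩ := Ideal.mem_span_singleton.mp hj
        rw [map_add, map_mul]
        exact Ideal.add_mem _ (Ideal.mem_sup_left (toRP_mem hi))
          (Ideal.mem_sup_right (Ideal.mul_mem_right _ _ (Ideal.mem_span_singleton_self _)))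
      · exact Ideal.mem_sup_right (Ideal.mem_span_singleton_self _)
    calc _ ≤ (0 : WithBot ℕ∞) + 1 := add_le_add_left h0 1
      _ = 1 := zero_add 1

end Base

theorem taskDimP : TaskDimP := by
  intro T _ _ _ _ α β γ hB
  obtain ⟨hα, hβ, hγ⟩ := mem_max hB
  have hloc : IsLocalRing (RR T α β γ) :=
    Pool.Agent.H607R3.PS.taskLoc T α β γ hα hβ hγ
  have h1 : ringKrullDim (RP T α β γ ⧸ cP T α β γ) ≤ 1 := dimC hB
  have h2 : (3 : WithBot ℕ∞) + 1 ≤ ringKrullDim (RP T α β γ) :=
    (add_le_add_left (dimA hB) 1).trans (dim_ge (RR.s : RR T α β γ))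
  calc (2 : WithBot ℕ∞) + ringKrullDim (RP T α β γ ⧸ cP T α β γ) ≤ 2 + 1 :=
        add_le_add_right h1 2
    _ < 3 + 1 := by decide
    _ ≤ _ := h2

end Run7.h332.Gr
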