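import Pool.Agent.Run7.h332.Gr.C
import Pool.Agent.H841.PSRes
import Pool.Agent.H594.PSRegP
import Pool.Agent.H291R3.PSB.Base

set_option autoImplicit false
set_option backward.isDefEq.respectTransparency.types true

namespace Run7.h332.Gr

open Pool.Agent.H607R3.PS H51R3.PS Pool.Agent.W416.Equidim IsLocalRing PrimeSpectrum

/-- the data refuting the grade conjecture -/
theorem data : ∃ (A : Type) (_ : CommRing A) (_ : IsLocalRing A) (_ : IsNoetherianRing A)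
    (I : Ideal A), I ≠ ⊤ ∧ FinRes A (A ⧸ I) ∧
    (∃ rs : List A, rs.length = 2 ∧ (∀ r ∈ rs, r ∈ I) ∧
      RingTheory.Sequence.IsWeaklyRegular A rs) ∧
    (¬ ∃ rs : List A, rs.length = 3 ∧ (∀ r ∈ rs, r ∈ I) ∧
      RingTheory.Sequence.IsWeaklyRegular A rs) ∧
    (2 : WithBot ℕ∞) + ringKrullDim (A ⧸ I) < ringKrullDim A := by
  obtain ⟨T, i1, i2, i3, i4, α, β, γ, hB⟩ := Pool.Agent.H291R3.PSB.taskBase
  obtain ⟨hα, hβ, hγ⟩ := mem_max hB
  have hloc : IsLocalRing (RR T α β γ) :=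
    Pool.Agent.H607R3.PS.taskLoc T α β γ hα hβ hγ
  have h1 : IsLocalRing (RP T α β γ) := local_RP
  have h2 : IsNoetherianRing (RP T α β γ) := noeth_RP
  have h3 : cP T α β γ ≠ ⊤ := cP_ne_top hα hβ hγ
  have h4 : FinRes (RP T α β γ) (RP T α β γ ⧸ cP T α β γ) :=
    finRes_RP Pool.Agent.H607R3.PS.taskRes taskRegP hγ hB.reg
  have h5 : RingTheory.Sequence.IsWeaklyRegular (RP T α β γ)
      [toRP (RR.emb α : RR T α β γ) ^ 4, toRP (RR.emb β : RR T α β γ) ^ 2] :=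
    weaklyRegular_pair (taskRegP T α β γ hB.reg)
  have h6 : ∀ r ∈ [toRP (RR.emb α : RR T α β γ) ^ 4, toRP (RR.emb β : RR T α β γ) ^ 2],
      r ∈ cP T α β γ := by
    intro r hr
    have hr' : r = toRP (RR.emb α : RR T α β γ) ^ 4 ∨
        r = toRP (RR.emb β : RR T α β γ) ^ 2 := by simpa using hr
    rcases hr' with h | h
    · rw [h]; exact mem_F
    · rw [h]; exact mem_G
  exact ⟨RP T α β γ, inferInstance, h1, h2, cP T α β γ, h3, h4,
    ⟨[toRP (RR.emb α : RR T α β γ) ^ 4, toRP (RR.emb β : RR T α β γ) ^ 2], rfl, h6, h5⟩,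
    taskGradeP T α β γ hB, taskDimP T α β γ hB⟩

end Run7.h332.Gr
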